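import Pool.Agent.Helper96.VF.GoalsL

set_option autoImplicit false

open Filter Topology

namespace Pool.Agent.Helper96.VF

theorem gTND : TND := by
  intro a L C h
  have h0 : Tendsto (fun n : ℕ => Real.log (n : ℝ) / (n : ℝ)) atTop (𝓝 0) :=
    (Real.isLittleO_log_id_atTop.tendsto_div_nhds_zero).comp tendsto_natCast_atTop_atTop
  have h1 : Tendsto (fun n : ℕ => (1 : ℝ) / (n : ℝ)) atTop (𝓝 0) :=
    tendsto_one_div_atTop_nhds_zero_nat
  have h2 : Tendsto (fun n : ℕ => C * ((1 : ℝ) / (n : ℝ) + Real.log (n : ℝ) / (n : ℝ))) atTop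
      (𝓝 0) := by
    have := (h1.add h0).const_mul C
    simpa using this
  rw [tendsto_iff_norm_sub_tendsto_zero]
  refine squeeze_zero' (Eventually.of_forall fun n => norm_nonneg _) ?_ h2
  filter_upwards [eventually_ge_atTop 1] with n hn
  have hn' : (0 : ℝ) < n := by exact_mod_cast hn
  have h3 : (a n : ℝ) / n - L = ((a n : ℝ) - L * n) / n := by
    field_simp
  rw [h3, Real.norm_eq_abs, abs_div, abs_of_pos hn', div_le_iff₀ hn']
  have h4 : C * ((1 : ℝ) / n + Real.log n / n) * n = C * (1 + Real.log n) := by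
    field_simp
  rw [h4]
  exact h n hn

end Pool.Agent.Helper96.VF
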